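import Pool.Agent.Helper35.EAM.Spec

/-!
# EAM swarm, parts EXPA and REN: expansion over pairs of paths, renewal equation
-/

set_option autoImplicit false
set_option linter.unusedSectionVars false

open Finset

namespace Pool.Agent.Helper6.EAM

open Pool.Agent.Helper35.EAM

section

variable {D : Type} [Fintype D] [DecidableEq D]

lemma pos_zero {n : ℕ} (s : Fin n → D) : pos s 0 = 0 := by
  funext c
  simp [pos]

lemma pos_cons {n : ℕ} (a : D) (s : Fin n → D) (m : ℕ) :
    pos (Fin.cons a s : Fin (n + 1) → D) (m + 1) = Pi.single a 1 + pos s m := by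
  funext c
  unfold pos
  rw [Pi.add_apply, Finset.card_filter, Finset.card_filter, Fin.sum_univ_succ]
  push_cast
  congr 1
  · simp only [Fin.val_zero, Fin.cons_zero, Pi.single_apply]
    by_cases h : a = c
    · simp [h]
    · simp [h, Ne.symm h]
  · refine Finset.sum_congr rfl fun i _ => ?_
    simp only [Fin.val_succ, Fin.cons_succ, Nat.add_lt_add_iff_right]

/-- number of common bonds, as a product -/
lemma expa_aux (q : ℝ) (n : ℕ) (δ : D → ℤ) (hD : (Fintype.card D : ℝ) ≠ 0) :
    ∑ s : Fin n → D, ∑ s' : Fin n → D,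
      ∏ m : Fin n, (if δ + pos s m.val - pos s' m.val = 0 ∧ s m = s' m then q else 1) =
      (Fintype.card D : ℝ) ^ (2 * n) * fR D (q - 1) n δ := by
  induction n generalizing δ with
  | zero => simp [fR]
  | succ n ih =>
    rw [← (Fin.consEquiv (fun _ : Fin (n + 1) => D)).sum_comp, Fintype.sum_prod_type]
    have h1 : ∀ (a : D) (s : Fin n → D),
        ∑ s' : Fin (n + 1) → D, ∏ m : Fin (n + 1),
          (if δ + pos ((Fin.consEquiv (fun _ : Fin (n + 1) => D)) (a, s)) m.val - pos s' m.val = 0 ∧
            (Fin.consEquiv (fun _ : Fin (n + 1) => D)) (a, s) m = s' m then q else 1) =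
        ∑ b : D, ∑ s' : Fin n → D, (1 + (q - 1) * if δ = 0 ∧ a = b then 1 else 0) *
          ∏ m : Fin n, (if (δ + Pi.single a 1 - Pi.single b 1) + pos s m.val - pos s' m.val = 0 ∧
            s m = s' m then q else 1) := by
      intro a s
      rw [← (Fin.consEquiv (fun _ : Fin (n + 1) => D)).sum_comp, Fintype.sum_prod_type]
      refine Finset.sum_congr rfl fun b _ => Finset.sum_congr rfl fun s' _ => ?_
      rw [Fin.prod_univ_succ]
      congr 1
      · have e1 : ((Fin.consEquiv (fun _ : Fin (n + 1) => D)) (a, s)) 0 = a := rfl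
        have e2 : ((Fin.consEquiv (fun _ : Fin (n + 1) => D)) (b, s')) 0 = b := rfl
        rw [e1, e2, Fin.val_zero, pos_zero, pos_zero, add_zero, sub_zero]
        by_cases h : δ = 0 ∧ a = b
        · rw [if_pos h, if_pos h]; ring
        · rw [if_neg h, if_neg h]; ring
      · refine Finset.prod_congr rfl fun m _ => ?_
        have e1 : ((Fin.consEquiv (fun _ : Fin (n + 1) => D)) (a, s)) m.succ = s m := rfl
        have e2 : ((Fin.consEquiv (fun _ : Fin (n + 1) => D)) (b, s')) m.succ = s' m := rfl
        have e3 : pos ((Fin.consEquiv (fun _ : Fin (n + 1) => D)) (a, s)) m.succ.val =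
            Pi.single a 1 + pos s m.val := pos_cons a s m.val
        have e4 : pos ((Fin.consEquiv (fun _ : Fin (n + 1) => D)) (b, s')) m.succ.val =
            Pi.single b 1 + pos s' m.val := pos_cons b s' m.val
        rw [e1, e2, e3, e4]
        have e5 : δ + (Pi.single a 1 + pos s m.val) - (Pi.single b 1 + pos s' m.val) =
          (δ + Pi.single a 1 - Pi.single b 1) + pos s m.val - pos s' m.val := by abel
        rw [e5]
    simp_rw [h1]
    have h2 : ∀ a : D, ∑ s : Fin n → D, ∑ b : D, ∑ s' : Fin n → D,
        (1 + (q - 1) * if δ = 0 ∧ a = b then 1 else 0) *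
          ∏ m : Fin n, (if (δ + Pi.single a 1 - Pi.single b 1) + pos s m.val - pos s' m.val = 0 ∧
            s m = s' m then q else 1) =
        ∑ b : D, (1 + (q - 1) * if δ = 0 ∧ a = b then 1 else 0) *
          ((Fintype.card D : ℝ) ^ (2 * n) * fR D (q - 1) n (δ + Pi.single a 1 - Pi.single b 1)) := by
      intro a
      rw [Finset.sum_comm]
      refine Finset.sum_congr rfl fun b _ => ?_
      rw [← ih, Finset.mul_sum]
      refine Finset.sum_congr rfl fun s _ => ?_
      rw [Finset.mul_sum]
    simp_rw [h2]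
    rw [fR]
    rw [show 2 * (n + 1) = 2 * n + 2 by ring, pow_add]
    rw [mul_div_assoc', mul_assoc, mul_div_assoc, mul_div_cancel_left₀ _ (pow_ne_zero 2 hD),
      Finset.mul_sum]
    refine Finset.sum_congr rfl fun a _ => ?_
    rw [Finset.mul_sum]
    refine Finset.sum_congr rfl fun b _ => ?_
    ring

end

theorem t_EXPA : S_EXPA := by
  intro D _ _ _ n q
  have hD : (Fintype.card D : ℝ) ≠ 0 := by
    have := Fintype.card_pos (α := D)
    positivity
  rw [← expa_aux q n 0 hD]
  refine Finset.sum_congr rfl fun s _ => Finset.sum_congr rfl fun s' _ => ?_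
  rw [Finset.prod_ite, Finset.prod_const, Finset.prod_const_one, mul_one]
  congr 2
  ext m
  simp only [Finset.mem_filter, Finset.mem_univ, true_and, zero_add, sub_eq_zero]

end Pool.Agent.Helper6.EAM
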