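import Pool.Agent.Helper35.EAM.Spec
import Pool.Graph.R_seed8.H47R2.EA.REDUCE

/-!
# EAM swarm, part HAM: the Hamiltonian of a network
-/

set_option autoImplicit false
set_option linter.unusedSectionVars false

open Finset

namespace Pool.Agent.Helper6.EAM

open Pool.H47EA Pool.Agent.Helper35.EAM

lemma Jc_zero_of {d : ℕ} (J : Coupling d) {x y : Site d} (h : dist1 x y ≠ 1) : Jc J x y = 0 :=
  Jc_eq_zero J x y (fun h' => h ((mem_nbr_iff x y).1 h'))

theorem ham_net {d : ℕ} {I : Type} (J : Coupling d) (Nd Bd : Finset (Site d)) (S : Finset I)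
    (w u v : I → Site d) (ω : Site d → Bool) (hN : IsNet J Nd Bd S w u v ω)
    (L : Finset (Site d)) (hL : L = Nd ∪ S.image w) (σ : Site d → Bool)
    (hσ : ∀ y, y ∉ L → σ y = ω y) :
    ham J L σ = ∑ i ∈ S, (Jc J (w i) (u i) * sg (σ (w i)) * sg (σ (u i)) +
      Jc J (w i) (v i) * sg (σ (w i)) * sg (σ (v i))) := by
  set A := Nd ∪ Bd ∪ S.image w with hA
  set e : Site d → Site d → ℝ := fun x y => Jc J x y * sg (σ x) * sg (σ y) with he
  have hsymm : ∀ x y, e x y = e y x := by
    intro x y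
    simp only [he]
    rw [Jc_comm J x y]
    ring
  have e0 : ∀ x y, dist1 x y ≠ 1 → e x y = 0 := by
    intro x y h
    simp only [he]
    rw [Jc_zero_of J h, zero_mul, zero_mul]
  have hLA : L ⊆ A := by
    intro x hx
    rw [hL, Finset.mem_union] at hx
    rw [hA, Finset.mem_union, Finset.mem_union]
    tauto
  have hfld : ∀ x ∈ L, ∑ y ∈ nbr x \ A, Jc J x y * sg (ω y) = 0 := by
    intro x hx
    rw [hL, Finset.mem_union, Finset.mem_image] at hx
    rcases hx with hx | ⟨i, hi, rfl⟩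
    · exact hN.fldN x hx
    · exact hN.fldW i hi
  have h1 : ∀ x ∈ L, ∑ y ∈ nbr x, (if y ∈ L then e x y / 2 else e x y) =
      ∑ y ∈ A, (if y ∈ L then e x y / 2 else e x y) := by
    intro x hx
    have h2 : ∑ y ∈ nbr x \ A, (if y ∈ L then e x y / 2 else e x y) = 0 := by
      have h3 : ∀ y ∈ nbr x \ A, (if y ∈ L then e x y / 2 else e x y) =
          (Jc J x y * sg (ω y)) * sg (σ x) := by
        intro y hy
        have h4 : y ∉ L := fun h => (Finset.mem_sdiff.1 hy).2 (hLA h)
        rw [if_neg h4]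
        simp only [he]
        rw [hσ y h4]
        ring
      rw [Finset.sum_congr rfl h3, ← Finset.sum_mul, hfld x hx, zero_mul]
    have h3 : ∑ y ∈ A, (if y ∈ L then e x y / 2 else e x y) =
        ∑ y ∈ nbr x ∩ A, (if y ∈ L then e x y / 2 else e x y) := by
      symm
      refine Finset.sum_subset Finset.inter_subset_right ?_
      intro y hy hy'
      have h4 : e x y = 0 := e0 x y (fun h => hy'
        (Finset.mem_inter.2 ⟨(mem_nbr_iff x y).2 h, hy⟩))
      rw [h4]
      simp
    rw [h3, ← Finset.sum_inter_add_sum_sdiff (nbr x) A, h2, add_zero]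
  have dNB : Disjoint Nd Bd := Finset.disjoint_left.2 fun x hx => hN.NB x hx
  have dNW : Disjoint Nd (S.image w) := by
    rw [Finset.disjoint_right]
    intro x hx
    obtain ⟨i, hi, rfl⟩ := Finset.mem_image.1 hx
    exact hN.wN i hi
  have dBW : Disjoint Bd (S.image w) := by
    rw [Finset.disjoint_right]
    intro x hx
    obtain ⟨i, hi, rfl⟩ := Finset.mem_image.1 hx
    exact hN.wB i hi
  have hwS : ∀ f : Site d → ℝ, ∑ y ∈ S.image w, f y = ∑ i ∈ S, f (w i) := fun f =>
    Finset.sum_image fun i hi j hj h => hN.inj i hi j hj h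
  have h2 : ∀ x, ∑ y ∈ A, (if y ∈ L then e x y / 2 else e x y) =
      (∑ y ∈ Nd, e x y) / 2 + ∑ y ∈ Bd, e x y + (∑ i ∈ S, e x (w i)) / 2 := by
    intro x
    rw [hA, Finset.sum_union (Finset.disjoint_union_left.2 ⟨dNW, dBW⟩), Finset.sum_union dNB, hwS,
      Finset.sum_div, Finset.sum_div]
    congr 1
    · congr 1
      · refine Finset.sum_congr rfl fun y hy => ?_
        rw [if_pos (by rw [hL]; exact Finset.mem_union_left _ hy)]
      · refine Finset.sum_congr rfl fun y hy => ?_
        rw [if_neg]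
        rw [hL, Finset.mem_union]
        rintro (h | h)
        · exact Finset.disjoint_left.1 dNB h hy
        · exact Finset.disjoint_left.1 dBW hy h
    · refine Finset.sum_congr rfl fun i hi => ?_
      rw [if_pos (by rw [hL]; exact Finset.mem_union_right _ (Finset.mem_image_of_mem _ hi))]
  rw [ham_eq_sum]
  change ∑ x ∈ L, ∑ y ∈ nbr x, (if y ∈ L then e x y / 2 else e x y) = _
  rw [Finset.sum_congr rfl h1]
  simp_rw [h2]
  rw [hL, Finset.sum_union dNW, hwS]
  have h3 : ∑ x ∈ Nd, ((∑ y ∈ Nd, e x y) / 2 + ∑ y ∈ Bd, e x y + (∑ i ∈ S, e x (w i)) / 2) =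
      ∑ i ∈ S, (∑ y ∈ Nd, e (w i) y) / 2 := by
    have h4 : ∀ x ∈ Nd, (∑ y ∈ Nd, e x y) / 2 + ∑ y ∈ Bd, e x y + (∑ i ∈ S, e x (w i)) / 2 =
        ∑ i ∈ S, e (w i) x / 2 := by
      intro x hx
      rw [Finset.sum_eq_zero (s := Nd) (fun y hy => e0 x y (hN.adN x hx y (Or.inl hy))),
        Finset.sum_eq_zero (s := Bd) (fun y hy => e0 x y (hN.adN x hx y (Or.inr hy))),
        Finset.sum_div]
      rw [zero_div, add_zero, zero_add]
      exact Finset.sum_congr rfl fun i _ => by rw [hsymm]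
    rw [Finset.sum_congr rfl h4, Finset.sum_comm]
    exact Finset.sum_congr rfl fun i _ => (Finset.sum_div _ _ _).symm
  rw [h3, ← Finset.sum_add_distrib]
  refine Finset.sum_congr rfl fun i hi => ?_
  rw [Finset.sum_eq_zero (s := S) (fun j hj => e0 (w i) (w j) (hN.adWW i hi j hj))]
  have h5 : ∑ y ∈ Nd, e (w i) y + ∑ y ∈ Bd, e (w i) y = e (w i) (u i) + e (w i) (v i) := by
    rw [← Finset.sum_union dNB, ← Finset.sum_pair (hN.uv i hi)]
    symm
    refine Finset.sum_subset ?_ ?_
    · intro y hy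
      rw [Finset.mem_insert, Finset.mem_singleton] at hy
      rw [Finset.mem_union]
      rcases hy with rfl | rfl
      · exact hN.um i hi
      · exact hN.vm i hi
    · intro y hy hy'
      refine e0 _ _ fun h => hy' ?_
      rw [hN.adW i hi y (Finset.mem_union.1 hy)] at h
      rw [Finset.mem_insert, Finset.mem_singleton]
      exact h
  have h6 : e (w i) (u i) + e (w i) (v i) =
      Jc J (w i) (u i) * sg (σ (w i)) * sg (σ (u i)) +
        Jc J (w i) (v i) * sg (σ (w i)) * sg (σ (v i)) := rfl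
  rw [← h6, ← h5]
  ring

theorem t_HAM : S_HAM := by
  intro d I J Nd Bd S w u v ω hN η
  refine ham_net J Nd Bd S w u v ω hN _ rfl _ fun y hy => ?_
  unfold glue
  rw [dif_neg hy]

end Pool.Agent.Helper6.EAM
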