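import Pool.Agent.Helper35.EAM.Spec

/-!
# EAM swarm, part REN: renewal equation
-/

set_option autoImplicit false
set_option linter.unusedSectionVars false

open Finset

namespace Pool.Agent.Helper6.EAM

open Pool.Agent.Helper35.EAM

section

variable {D : Type} [Fintype D] [DecidableEq D]

lemma gR_nonneg (t : ℕ) (δ : D → ℤ) : 0 ≤ gR D t δ := by
  induction t generalizing δ with
  | zero =>
    rw [gR]
    split_ifs <;> norm_num
  | succ t ih =>
    rw [gR]
    exact div_nonneg (Finset.sum_nonneg fun a _ => Finset.sum_nonneg fun b _ => ih _)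
      (by positivity)

lemma renewal (c : ℝ) (hD : (Fintype.card D : ℝ) ≠ 0) (n : ℕ) (δ : D → ℤ) :
    fR D c n δ = 1 + c / (Fintype.card D : ℝ) *
      ∑ t ∈ Finset.range n, gR D t δ * fR D c (n - 1 - t) 0 := by
  induction n generalizing δ with
  | zero => simp [fR]
  | succ n ih =>
    have h1 : ∀ a b : D, (1 + c * if δ = 0 ∧ a = b then 1 else 0) *
        fR D c n (δ + Pi.single a 1 - Pi.single b 1) =
        fR D c n (δ + Pi.single a 1 - Pi.single b 1) +
          (if a = b then (c * (if δ = 0 then 1 else 0)) * fR D c n 0 else 0) := by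
      intro a b
      by_cases h : a = b
      · subst h
        rw [add_sub_cancel_right, if_pos rfl]
        by_cases h0 : δ = 0
        · subst h0
          simp
          ring
        · simp [h0]
      · simp [h]
    have h2 : ∑ a : D, ∑ b : D, (1 + c * if δ = 0 ∧ a = b then 1 else 0) *
        fR D c n (δ + Pi.single a 1 - Pi.single b 1) =
        ∑ a : D, ∑ b : D, fR D c n (δ + Pi.single a 1 - Pi.single b 1) +
          (Fintype.card D : ℝ) * ((c * (if δ = 0 then 1 else 0)) * fR D c n 0) := by
      simp_rw [h1, Finset.sum_add_distrib]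
      congr 1
      simp
    have h3 : ∑ a : D, ∑ b : D, fR D c n (δ + Pi.single a 1 - Pi.single b 1) =
        (Fintype.card D : ℝ) ^ 2 * (1 + c / (Fintype.card D : ℝ) *
          ∑ t ∈ Finset.range n, gR D (t + 1) δ * fR D c (n - 1 - t) 0) := by
      have h4 : ∀ a b : D, fR D c n (δ + Pi.single a 1 - Pi.single b 1) =
          1 + c / (Fintype.card D : ℝ) * ∑ t ∈ Finset.range n,
            gR D t (δ + Pi.single a 1 - Pi.single b 1) * fR D c (n - 1 - t) 0 := fun a b => ih _
      have h5 : ∀ t, gR D (t + 1) δ = (∑ a : D, ∑ b : D,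
        gR D t (δ + Pi.single a 1 - Pi.single b 1)) / (Fintype.card D : ℝ) ^ 2 := fun t => rfl
      simp_rw [h4, Finset.sum_add_distrib, ← Finset.mul_sum]
      have h6 : ∑ a : D, ∑ b : D, ∑ t ∈ Finset.range n,
          gR D t (δ + Pi.single a 1 - Pi.single b 1) * fR D c (n - 1 - t) 0 =
          (Fintype.card D : ℝ) ^ 2 *
            ∑ t ∈ Finset.range n, gR D (t + 1) δ * fR D c (n - 1 - t) 0 := by
        have h7 : ∀ a : D, ∑ b : D, ∑ t ∈ Finset.range n,
            gR D t (δ + Pi.single a 1 - Pi.single b 1) * fR D c (n - 1 - t) 0 =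
            ∑ t ∈ Finset.range n, (∑ b : D, gR D t (δ + Pi.single a 1 - Pi.single b 1)) *
              fR D c (n - 1 - t) 0 := by
          intro a
          rw [Finset.sum_comm]
          exact Finset.sum_congr rfl fun t _ => (Finset.sum_mul _ _ _).symm
        simp_rw [h7]
        rw [Finset.sum_comm, Finset.mul_sum]
        refine Finset.sum_congr rfl fun t _ => ?_
        rw [← Finset.sum_mul, h5]
        field_simp
      rw [h6]
      simp only [Finset.sum_const, Finset.card_univ, nsmul_eq_mul, mul_one]
      ring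
    have h8 : ∑ t ∈ Finset.range (n + 1), gR D t δ * fR D c (n + 1 - 1 - t) 0 =
        ∑ t ∈ Finset.range n, gR D (t + 1) δ * fR D c (n - 1 - t) 0 +
          (if δ = 0 then 1 else 0) * fR D c n 0 := by
      rw [Finset.sum_range_succ']
      congr 1
      refine Finset.sum_congr rfl fun t _ => ?_
      rw [show n + 1 - 1 - (t + 1) = n - 1 - t by omega]
    rw [h8, fR, h2, h3]
    field_simp
    ring

end

theorem t_REN : S_REN := by
  intro D _ _ _ c hc hg n
  have hk : 0 < (Fintype.card D : ℝ) := by
    have := Fintype.card_pos (α := D)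
    positivity
  induction n using Nat.strong_induction_on with
  | _ n ih =>
    rw [renewal c hk.ne' n 0]
    have h1 : ∑ t ∈ Finset.range n, gR D t 0 * fR D c (n - 1 - t) 0 ≤
        2 * ∑ t ∈ Finset.range n, gR D t 0 := by
      rw [Finset.mul_sum]
      refine Finset.sum_le_sum fun t ht => ?_
      rw [Finset.mem_range] at ht
      have h2 := ih (n - 1 - t) (by omega)
      have h3 := gR_nonneg (D := D) t 0
      nlinarith
    have h4 := hg n
    have h5 : c / (Fintype.card D : ℝ) * ∑ t ∈ Finset.range n, gR D t 0 * fR D c (n - 1 - t) 0 ≤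
        c / (Fintype.card D : ℝ) * (2 * ∑ t ∈ Finset.range n, gR D t 0) :=
      mul_le_mul_of_nonneg_left h1 (by positivity)
    have h6 : c / (Fintype.card D : ℝ) * (2 * ∑ t ∈ Finset.range n, gR D t 0) =
        2 * (c * ∑ t ∈ Finset.range n, gR D t 0) / (Fintype.card D : ℝ) := by ring
    have h7 : 2 * (c * ∑ t ∈ Finset.range n, gR D t 0) / (Fintype.card D : ℝ) ≤ 1 := by
      rw [div_le_one hk]
      linarith
    linarith

end Pool.Agent.Helper6.EAM
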